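import Pool.Agent.H7.IA.Stmts

/-! Board `ia13`, row KBT: Bonferroni for the cliques of a block. -/

set_option autoImplicit false

open Finset

namespace Pool.IA7

open Pool.Agent.H23.KT Pool.Agent.H46.KW Pool.KQ Pool.GT7 Pool.GU7 Pool.HZ7

/-! ### Transversal sets -/

section kbt

variable {V : Type} [DecidableEq V] {b : ℕ}

open Classical in
/-- Transversal `m`-sets in the parts `J` which contain `A`. -/
noncomputable def kbtT (Q : Fin b → Finset V) (J : Finset (Fin b)) (m : ℕ) (A : Finset V) :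
    Finset (Finset V) :=
  ((J.biUnion Q).powersetCard m).filter
    (fun T => (∀ j, ∀ u ∈ T, ∀ v ∈ T, u ∈ Q j → v ∈ Q j → u = v) ∧ A ⊆ T)

theorem mem_kbtT {Q : Fin b → Finset V} {J : Finset (Fin b)} {m : ℕ} {A T : Finset V} :
    T ∈ kbtT Q J m A ↔ (T ⊆ J.biUnion Q ∧ T.card = m) ∧
      (∀ j, ∀ u ∈ T, ∀ v ∈ T, u ∈ Q j → v ∈ Q j → u = v) ∧ A ⊆ T := by
  classical
  unfold kbtT
  rw [mem_filter, mem_powersetCard]

omit [DecidableEq V] in
theorem kbt_part {Q : Fin b → Finset V} (hd : ∀ i j, i ≠ j → Disjoint (Q i) (Q j)) {i j : Fin b}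
    {u : V} (hi : u ∈ Q i) (hj : u ∈ Q j) : i = j := by
  by_contra h
  exact (disjoint_left.1 (hd i j h)) hi hj

theorem kbt_step (Q : Fin b → Finset V) (hd : ∀ i j, i ≠ j → Disjoint (Q i) (Q j))
    {J : Finset (Fin b)} {j : Fin b} (hj : j ∈ J) {u : V} (hu : u ∈ Q j) {A : Finset V}
    (huA : u ∉ A) (m : ℕ) :
    (kbtT Q J (m + 1) (insert u A)).card = (kbtT Q (J.erase j) m A).card := by
  refine card_bij' (fun T _ => T.erase u) (fun T _ => insert u T) ?_ ?_ ?_ ?_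
  · intro T hT
    obtain ⟨⟨h1, h2⟩, h3, h4⟩ := mem_kbtT.1 hT
    have huT : u ∈ T := h4 (mem_insert_self _ _)
    refine mem_kbtT.2 ⟨⟨?_, ?_⟩, ?_, ?_⟩
    · intro x hx
      obtain ⟨hxu, hxT⟩ := mem_erase.1 hx
      obtain ⟨i, hi, hxi⟩ := mem_biUnion.1 (h1 hxT)
      refine mem_biUnion.2 ⟨i, mem_erase.2 ⟨?_, hi⟩, hxi⟩
      rintro rfl
      exact hxu (h3 i x hxT u huT hxi hu)
    · rw [card_erase_of_mem huT, h2]
      rfl
    · intro i x hx y hy
      exact h3 i x (mem_of_mem_erase hx) y (mem_of_mem_erase hy)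
    · intro x hx
      refine mem_erase.2 ⟨?_, h4 (mem_insert_of_mem hx)⟩
      rintro rfl
      exact huA hx
  · intro T hT
    obtain ⟨⟨h1, h2⟩, h3, h4⟩ := mem_kbtT.1 hT
    have hno : ∀ x ∈ T, x ∉ Q j := by
      intro x hx hxj
      obtain ⟨i, hi, hxi⟩ := mem_biUnion.1 (h1 hx)
      exact (mem_erase.1 hi).1 (kbt_part hd hxi hxj)
    have huT : u ∉ T := fun h => hno u h hu
    refine mem_kbtT.2 ⟨⟨?_, ?_⟩, ?_, ?_⟩
    · intro x hx
      rcases mem_insert.1 hx with rfl | hx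
      · exact mem_biUnion.2 ⟨j, hj, hu⟩
      · obtain ⟨i, hi, hxi⟩ := mem_biUnion.1 (h1 hx)
        exact mem_biUnion.2 ⟨i, mem_of_mem_erase hi, hxi⟩
    · rw [card_insert_of_notMem huT, h2]
    · intro i x hx y hy hxi hyi
      rcases mem_insert.1 hx with hx1 | hx1
      · rcases mem_insert.1 hy with hy1 | hy1
        · rw [hx1, hy1]
        · rw [hx1] at hxi
          have := kbt_part hd hxi hu
          subst this
          exact absurd hyi (hno y hy1)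
      · rcases mem_insert.1 hy with hy1 | hy1
        · rw [hy1] at hyi
          have := kbt_part hd hyi hu
          subst this
          exact absurd hxi (hno x hx1)
        · exact h3 i x hx1 y hy1 hxi hyi
    · exact insert_subset_insert _ h4
  · intro T hT
    obtain ⟨-, -, h4⟩ := mem_kbtT.1 hT
    exact insert_erase (h4 (mem_insert_self _ _))
  · intro T hT
    obtain ⟨⟨h1, -⟩, -, -⟩ := mem_kbtT.1 hT
    refine erase_insert ?_
    intro h
    obtain ⟨i, hi, hxi⟩ := mem_biUnion.1 (h1 h)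
    exact (mem_erase.1 hi).1 (kbt_part hd hxi hu)

theorem kbt_rec (Q : Fin b → Finset V) (hd : ∀ i j, i ≠ j → Disjoint (Q i) (Q j))
    {J : Finset (Fin b)} {j : Fin b} (hj : j ∉ J) (m : ℕ) :
    (kbtT Q (insert j J) (m + 1) ∅).card =
      (kbtT Q J (m + 1) ∅).card + (Q j).card * (kbtT Q J m ∅).card := by
  classical
  set B := kbtT Q (insert j J) (m + 1) ∅ with hB
  have h1 : ∑ T ∈ B, (Q j ∩ T).card = (Q j).card * (kbtT Q J m ∅).card := by
    refine sum_card_inter ?_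
    intro u hu
    have e1 : B.filter (fun T => u ∈ T) = kbtT Q (insert j J) (m + 1) (insert u ∅) := by
      ext T
      rw [mem_filter, hB, mem_kbtT, mem_kbtT]
      constructor
      · rintro ⟨⟨h1, h2, h3⟩, h4⟩
        exact ⟨h1, h2, by simpa using h4⟩
      · rintro ⟨h1, h2, h3⟩
        exact ⟨⟨h1, h2, empty_subset _⟩, by simpa using h3⟩
    rw [e1, kbt_step Q hd (mem_insert_self j J) hu (notMem_empty u) m, erase_insert hj]
  have h3 : B.filter (fun T => Q j ∩ T = ∅) = kbtT Q J (m + 1) ∅ := by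
    ext T
    rw [mem_filter, hB, mem_kbtT, mem_kbtT]
    constructor
    · rintro ⟨⟨⟨h1, h2⟩, h3, h4⟩, h5⟩
      refine ⟨⟨?_, h2⟩, h3, h4⟩
      intro x hx
      obtain ⟨i, hi, hxi⟩ := mem_biUnion.1 (h1 hx)
      rcases mem_insert.1 hi with rfl | hi
      · exact absurd (mem_inter.2 ⟨hxi, hx⟩) (by rw [h5]; exact notMem_empty x)
      · exact mem_biUnion.2 ⟨i, hi, hxi⟩
    · rintro ⟨⟨h1, h2⟩, h3, h4⟩
      refine ⟨⟨⟨?_, h2⟩, h3, h4⟩, ?_⟩
      · exact h1.trans (biUnion_subset_biUnion_of_subset_left _ (subset_insert _ _))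
      · rw [eq_empty_iff_forall_notMem]
        intro x hx
        obtain ⟨hxj, hxT⟩ := mem_inter.1 hx
        obtain ⟨i, hi, hxi⟩ := mem_biUnion.1 (h1 hxT)
        rw [kbt_part hd hxi hxj] at hi
        exact hj hi
  have h2 : B.card = (B.filter (fun T => Q j ∩ T = ∅)).card + ∑ T ∈ B, (Q j ∩ T).card := by
    rw [card_filter, ← sum_add_distrib, card_eq_sum_ones]
    refine sum_congr rfl fun T hT => ?_
    obtain ⟨-, h3, -⟩ := mem_kbtT.1 hT
    split_ifs with h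
    · rw [h, card_empty]
    · have h5 : (Q j ∩ T).card ≤ 1 := by
        rw [card_le_one]
        intro x hx y hy
        exact h3 j x (mem_inter.1 hx).2 y (mem_inter.1 hy).2 (mem_inter.1 hx).1
          (mem_inter.1 hy).1
      have h6 : 1 ≤ (Q j ∩ T).card := card_pos.2 (nonempty_iff_ne_empty.2 h)
      omega
  rw [h2, h1, h3]

theorem kbt_zero (Q : Fin b → Finset V) (J : Finset (Fin b)) : (kbtT Q J 0 ∅).card = 1 := by
  rw [card_eq_one]
  refine ⟨∅, ?_⟩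
  ext T
  rw [mem_kbtT, mem_singleton]
  constructor
  · rintro ⟨⟨-, h⟩, -⟩
    exact card_eq_zero.1 h
  · rintro rfl
    exact ⟨⟨empty_subset _, card_empty⟩, fun _ x hx => absurd hx (notMem_empty x), Subset.rfl⟩

theorem kbt_card (Q : Fin b → Finset V) (hd : ∀ i j, i ≠ j → Disjoint (Q i) (Q j))
    (J : Finset (Fin b)) : ∀ m : ℕ, (kbtT Q J m ∅).card =
      ∑ I ∈ J.powersetCard m, ∏ i ∈ I, (Q i).card := by
  classical
  induction J using Finset.induction_on with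
  | empty =>
    intro m
    rcases m with _ | m
    · rw [kbt_zero, powersetCard_zero, sum_singleton, prod_empty]
    · rw [powersetCard_eq_empty.2 (by simp), sum_empty, card_eq_zero,
        eq_empty_iff_forall_notMem]
      intro T hT
      obtain ⟨⟨h1, h2⟩, -⟩ := mem_kbtT.1 hT
      rw [biUnion_empty, subset_empty] at h1
      rw [h1, card_empty] at h2
      omega
  | insert j J hj ih =>
    intro m
    rcases m with _ | m
    · rw [kbt_zero, powersetCard_zero, sum_singleton, prod_empty]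
    · rw [kbt_rec Q hd hj, ih, ih, powersetCard_succ_insert hj, sum_union, sum_image, mul_sum]
      · congr 1
        refine sum_congr rfl fun I hI => ?_
        rw [prod_insert]
        intro h
        exact hj ((mem_powersetCard.1 hI).1 h)
      · intro I hI I' hI' h
        have e1 : j ∉ I := fun h => hj ((mem_powersetCard.1 hI).1 h)
        have e2 : j ∉ I' := fun h => hj ((mem_powersetCard.1 hI').1 h)
        have h' : insert j I = insert j I' := h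
        rw [← erase_insert e1, ← erase_insert e2, h']
      · rw [disjoint_left]
        intro I hI hI'
        obtain ⟨I'', -, rfl⟩ := mem_image.1 hI'
        exact hj ((mem_powersetCard.1 hI).1 (mem_insert_self _ _))

theorem kbt_lo (Q : Fin b → Finset V) (hd : ∀ i j, i ≠ j → Disjoint (Q i) (Q j))
    (J : Finset (Fin b)) (m : ℕ) (lo : ℝ) (h0 : 0 ≤ lo) (h : ∀ j, lo ≤ ((Q j).card : ℝ)) :
    (J.card.choose m : ℝ) * lo ^ m ≤ ((kbtT Q J m ∅).card : ℝ) := by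
  rw [kbt_card Q hd, Nat.cast_sum, ← card_powersetCard, ← nsmul_eq_mul]
  refine card_nsmul_le_sum _ _ _ fun I hI => ?_
  rw [Nat.cast_prod, ← (mem_powersetCard.1 hI).2, ← prod_const]
  exact prod_le_prod (fun _ _ => h0) fun i _ => h i

theorem kbt_hi (Q : Fin b → Finset V) (hd : ∀ i j, i ≠ j → Disjoint (Q i) (Q j))
    (J : Finset (Fin b)) (m : ℕ) (hi : ℝ) (h : ∀ j, ((Q j).card : ℝ) ≤ hi) :
    ((kbtT Q J m ∅).card : ℝ) ≤ (J.card.choose m : ℝ) * hi ^ m := by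
  rw [kbt_card Q hd, Nat.cast_sum, ← card_powersetCard, ← nsmul_eq_mul]
  refine sum_le_card_nsmul _ _ _ fun I hI => ?_
  rw [Nat.cast_prod, ← (mem_powersetCard.1 hI).2, ← prod_const]
  exact prod_le_prod (fun _ _ => Nat.cast_nonneg _) fun i _ => h i

/-! ### The pointwise inequality -/

omit [DecidableEq V] in
theorem kbt_nat1 (n : ℕ) : (0 : ℝ) ≤ (n : ℝ) * ((n : ℝ) - 1) := by
  rcases n with _ | n
  · simp
  · push_cast
    have : (0 : ℝ) ≤ n := Nat.cast_nonneg n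
    nlinarith

omit [DecidableEq V] in
theorem kbt_nat2 (n : ℕ) : 2 * ((n : ℝ) - 1) ≤ (n : ℝ) * ((n : ℝ) - 1) := by
  rcases n with _ | _ | n
  · norm_num
  · norm_num
  · push_cast
    have : (0 : ℝ) ≤ n := Nat.cast_nonneg n
    nlinarith

theorem kbt_split {T : Finset V} {x y : V} (hx : x ∈ T) (hy : y ∈ T) (hxy : x ≠ y) (g : V → ℝ) :
    ∑ u ∈ T, g u = g x + g y + ∑ u ∈ (T.erase x).erase y, g u := by
  rw [← add_sum_erase T g hx, ← add_sum_erase (T.erase x) g (mem_erase.2 ⟨hxy.symm, hy⟩)]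
  ring

theorem kbt_pt (T : Finset V) (r : V → V → Prop) [DecidableRel r] (hs : ∀ u v, r u v → r v u)
    (hi : ∀ u, ¬ r u u) (c : ℝ) (hc : c ≤ 1) (hc' : (∃ u ∈ T, ∃ v ∈ T, r u v) → c = 0) :
    c + 1 / 2 * ∑ u ∈ T, ((T.filter (r u)).card : ℝ) ≤
      1 + 1 / 2 * ∑ u ∈ T, ((T.filter (r u)).card : ℝ) * (((T.filter (r u)).card : ℝ) - 1) +
      1 / 2 * ∑ x ∈ T, ∑ y ∈ T.filter (r x), ∑ u ∈ (T.erase x).erase y,
        ((((T.erase x).erase y).filter (r u)).card : ℝ) := by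
  by_cases h : ∃ u ∈ T, ∃ v ∈ T, r u v
  · obtain ⟨x, hx, y, hy, hxy⟩ := h
    have hne : x ≠ y := by
      rintro rfl
      exact hi x hxy
    have hc0 := hc' ⟨x, hx, y, hy, hxy⟩
    have hm : ∀ (W : Finset V) (u : V), ((W.filter (r u)).card : ℝ) =
        ∑ v ∈ W, if r u v then (1 : ℝ) else 0 := by
      intro W u
      rw [card_filter]
      push_cast
      rfl
    set d : V → ℝ := fun u => ((T.filter (r u)).card : ℝ) with hd
    set T' := (T.erase x).erase y with hT'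
    have h1 := kbt_split hx hy hne d
    have h2 : ∑ u ∈ T', d u = ∑ u ∈ T', ((if r u x then (1 : ℝ) else 0) +
        (if r u y then (1 : ℝ) else 0) + ((T'.filter (r u)).card : ℝ)) := by
      refine sum_congr rfl fun u _ => ?_
      rw [hd]
      show ((T.filter (r u)).card : ℝ) = _
      rw [hm, hm, kbt_split hx hy hne]
    rw [sum_add_distrib, sum_add_distrib] at h2
    have h3 : d x = 1 + ∑ u ∈ T', (if r u x then (1 : ℝ) else 0) := by
      rw [hd]
      show ((T.filter (r x)).card : ℝ) = _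
      rw [hm, kbt_split hx hy hne, if_neg (hi x), if_pos hxy, zero_add]
      congr 1
      exact sum_congr rfl fun u _ => if_congr ⟨hs _ _, hs _ _⟩ rfl rfl
    have h4 : d y = 1 + ∑ u ∈ T', (if r u y then (1 : ℝ) else 0) := by
      rw [hd]
      show ((T.filter (r y)).card : ℝ) = _
      rw [hm, kbt_split hx hy hne, if_neg (hi y), if_pos (hs _ _ hxy), add_zero]
      congr 1
      exact sum_congr rfl fun u _ => if_congr ⟨hs _ _, hs _ _⟩ rfl rfl
    have h5 := kbt_split hx hy hne (fun u => d u * (d u - 1))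
    have h6 : 0 ≤ ∑ u ∈ T', d u * (d u - 1) := sum_nonneg fun u _ => kbt_nat1 _
    have h7 : 2 * (d x - 1) ≤ d x * (d x - 1) := kbt_nat2 _
    have h8 : 2 * (d y - 1) ≤ d y * (d y - 1) := kbt_nat2 _
    have h9 : ∑ u ∈ T', ((T'.filter (r u)).card : ℝ) ≤
        ∑ x ∈ T, ∑ y ∈ T.filter (r x), ∑ u ∈ (T.erase x).erase y,
          ((((T.erase x).erase y).filter (r u)).card : ℝ) := by
      have e1 : ∑ u ∈ T', ((T'.filter (r u)).card : ℝ) ≤
          ∑ y ∈ T.filter (r x), ∑ u ∈ (T.erase x).erase y,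
            ((((T.erase x).erase y).filter (r u)).card : ℝ) :=
        single_le_sum (f := fun y => ∑ u ∈ (T.erase x).erase y,
            ((((T.erase x).erase y).filter (r u)).card : ℝ))
          (fun _ _ => sum_nonneg fun _ _ => Nat.cast_nonneg _) (mem_filter.2 ⟨hy, hxy⟩)
      refine e1.trans ?_
      exact single_le_sum (f := fun x => ∑ y ∈ T.filter (r x), ∑ u ∈ (T.erase x).erase y,
            ((((T.erase x).erase y).filter (r u)).card : ℝ))
          (fun _ _ => sum_nonneg fun _ _ => sum_nonneg fun _ _ => Nat.cast_nonneg _) hx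
    rw [hc0, h5, h1]
    linarith
  · have h0 : ∀ u ∈ T, T.filter (r u) = ∅ := by
      intro u hu
      rw [filter_eq_empty_iff]
      intro v hv hr
      exact h ⟨u, hu, v, hv, hr⟩
    have h1 : ∑ u ∈ T, ((T.filter (r u)).card : ℝ) = 0 :=
      sum_eq_zero fun u hu => by rw [h0 u hu, card_empty, Nat.cast_zero]
    have h2 : 0 ≤ ∑ u ∈ T, ((T.filter (r u)).card : ℝ) * (((T.filter (r u)).card : ℝ) - 1) :=
      sum_nonneg fun u _ => kbt_nat1 _
    have h3 : 0 ≤ ∑ x ∈ T, ∑ y ∈ T.filter (r x), ∑ u ∈ (T.erase x).erase y,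
        ((((T.erase x).erase y).filter (r u)).card : ℝ) :=
      sum_nonneg fun _ _ => sum_nonneg fun _ _ => sum_nonneg fun _ _ => Nat.cast_nonneg _
    rw [h1]
    linarith

/-! ### Sums over the transversal sets -/

theorem kbt_ind {S T : Finset V} (h : T ⊆ S) (f : V → ℝ) :
    ∑ u ∈ T, f u = ∑ u ∈ S, if u ∈ T then f u else 0 := by
  rw [← sum_filter]
  congr 1
  ext x
  rw [mem_filter]
  exact ⟨fun hx => ⟨h hx, hx⟩, fun hx => hx.2⟩

theorem kbt_indf {S T : Finset V} (h : T ⊆ S) (r : V → V → Prop) [DecidableRel r] (u : V)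
    (f : V → ℝ) :
    ∑ v ∈ T.filter (r u), f v = ∑ v ∈ S.filter (r u), if v ∈ T then f v else 0 := by
  rw [← sum_filter]
  congr 1
  ext x
  rw [mem_filter, mem_filter, mem_filter]
  exact ⟨fun hx => ⟨⟨h hx.1, hx.2⟩, hx.1⟩, fun hx => ⟨hx.2, hx.1.2⟩⟩

theorem kbt_indc {S T : Finset V} (h : T ⊆ S) (r : V → V → Prop) [DecidableRel r] (u : V) :
    ((T.filter (r u)).card : ℝ) = ∑ v ∈ S.filter (r u), if v ∈ T then (1 : ℝ) else 0 := by
  rw [← kbt_indf h r u (fun _ => 1), sum_const, nsmul_eq_mul, mul_one]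

theorem kbt_sum1 (F : Finset (Finset V)) (S : Finset V) (hF : ∀ T ∈ F, T ⊆ S)
    (r : V → V → Prop) [DecidableRel r] (L : ℝ)
    (hL : ∀ u ∈ S, ∀ v ∈ S.filter (r u), L ≤ ((F.filter (fun T => u ∈ T ∧ v ∈ T)).card : ℝ)) :
    (∑ u ∈ S, ((S.filter (r u)).card : ℝ)) * L ≤
      ∑ T ∈ F, ∑ u ∈ T, ((T.filter (r u)).card : ℝ) := by
  have h1 : ∑ T ∈ F, ∑ u ∈ T, ((T.filter (r u)).card : ℝ) =
      ∑ u ∈ S, ∑ v ∈ S.filter (r u), ((F.filter (fun T => u ∈ T ∧ v ∈ T)).card : ℝ) := by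
    have e1 : ∀ T ∈ F, ∑ u ∈ T, ((T.filter (r u)).card : ℝ) =
        ∑ u ∈ S, ∑ v ∈ S.filter (r u), if u ∈ T ∧ v ∈ T then (1 : ℝ) else 0 := by
      intro T hT
      rw [kbt_ind (hF T hT)]
      refine sum_congr rfl fun u _ => ?_
      by_cases hu : u ∈ T
      · rw [if_pos hu, kbt_indc (hF T hT)]
        refine sum_congr rfl fun v _ => ?_
        simp only [hu, true_and]
      · rw [if_neg hu]
        refine (sum_eq_zero fun v _ => ?_).symm
        rw [if_neg fun h => hu h.1]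
    rw [sum_congr rfl e1, sum_comm]
    refine sum_congr rfl fun u _ => ?_
    rw [sum_comm]
    refine sum_congr rfl fun v _ => ?_
    rw [card_filter]
    push_cast
    rfl
  rw [h1, sum_mul]
  refine sum_le_sum fun u hu => ?_
  rw [← nsmul_eq_mul]
  exact card_nsmul_le_sum _ _ _ fun v hv => hL u hu v hv

theorem kbt_sum2 (F : Finset (Finset V)) (S : Finset V) (hF : ∀ T ∈ F, T ⊆ S)
    (r : V → V → Prop) [DecidableRel r] (N : ℝ) (hN0 : 0 ≤ N)
    (hN : ∀ u ∈ S, ∀ x ∈ (S.filter (r u)).offDiag,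
      ((F.filter (fun T => u ∈ T ∧ x.1 ∈ T ∧ x.2 ∈ T)).card : ℝ) ≤ N) :
    ∑ T ∈ F, ∑ u ∈ T, ((T.filter (r u)).card : ℝ) * (((T.filter (r u)).card : ℝ) - 1) ≤
      (∑ u ∈ S, ((S.filter (r u)).card : ℝ) ^ 2) * N := by
  have h1 : ∑ T ∈ F, ∑ u ∈ T, ((T.filter (r u)).card : ℝ) * (((T.filter (r u)).card : ℝ) - 1) =
      ∑ u ∈ S, ∑ x ∈ (S.filter (r u)).offDiag,
        ((F.filter (fun T => u ∈ T ∧ x.1 ∈ T ∧ x.2 ∈ T)).card : ℝ) := by
    have e1 : ∀ T ∈ F, ∑ u ∈ T, ((T.filter (r u)).card : ℝ) *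
          (((T.filter (r u)).card : ℝ) - 1) =
        ∑ u ∈ S, ∑ x ∈ (S.filter (r u)).offDiag,
          if u ∈ T ∧ x.1 ∈ T ∧ x.2 ∈ T then (1 : ℝ) else 0 := by
      intro T hT
      rw [kbt_ind (hF T hT)]
      refine sum_congr rfl fun u _ => ?_
      by_cases hu : u ∈ T
      · rw [if_pos hu]
        have e2 : ((T.filter (r u)).card : ℝ) * (((T.filter (r u)).card : ℝ) - 1) =
            (((T.filter (r u)).offDiag.card : ℕ) : ℝ) := by
          rw [offDiag_card, Nat.cast_sub (Nat.le_mul_self _), Nat.cast_mul]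
          ring
        have e3 : (T.filter (r u)).offDiag =
            (S.filter (r u)).offDiag.filter (fun x => x.1 ∈ T ∧ x.2 ∈ T) := by
          ext ⟨x, y⟩
          simp only [mem_offDiag, mem_filter]
          constructor
          · rintro ⟨⟨h1, h2⟩, ⟨h3, h4⟩, h5⟩
            exact ⟨⟨⟨hF T hT h1, h2⟩, ⟨hF T hT h3, h4⟩, h5⟩, h1, h3⟩
          · rintro ⟨⟨⟨_, h2⟩, ⟨_, h4⟩, h5⟩, h1, h3⟩
            exact ⟨⟨h1, h2⟩, ⟨h3, h4⟩, h5⟩
        rw [e2, e3, card_filter]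
        push_cast
        refine sum_congr rfl fun v _ => ?_
        simp only [hu, true_and]
      · rw [if_neg hu]
        refine (sum_eq_zero fun v _ => ?_).symm
        rw [if_neg fun h => hu h.1]
    rw [sum_congr rfl e1, sum_comm]
    refine sum_congr rfl fun u _ => ?_
    rw [sum_comm]
    refine sum_congr rfl fun v _ => ?_
    rw [card_filter]
    push_cast
    rfl
  rw [h1, sum_mul]
  refine sum_le_sum fun u hu => ?_
  have h2 : ∑ x ∈ (S.filter (r u)).offDiag,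
      ((F.filter (fun T => u ∈ T ∧ x.1 ∈ T ∧ x.2 ∈ T)).card : ℝ) ≤
      ((S.filter (r u)).offDiag.card : ℝ) * N := by
    rw [← nsmul_eq_mul]
    exact sum_le_card_nsmul _ _ _ fun x hx => hN u hu x hx
  refine h2.trans (mul_le_mul_of_nonneg_right ?_ hN0)
  rw [offDiag_card, sq]
  exact_mod_cast Nat.sub_le _ _

theorem kbt_sum3 (F : Finset (Finset V)) (S : Finset V) (hF : ∀ T ∈ F, T ⊆ S)
    (r : V → V → Prop) [DecidableRel r] (N : ℝ) (hN0 : 0 ≤ N)
    (hN : ∀ x y u v, x ≠ y → u ≠ v → u ≠ x → u ≠ y → v ≠ x → v ≠ y →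
      ((F.filter (fun T => x ∈ T ∧ y ∈ T ∧ u ∈ T ∧ v ∈ T)).card : ℝ) ≤ N)
    (hi : ∀ u, ¬ r u u) :
    ∑ T ∈ F, ∑ x ∈ T, ∑ y ∈ T.filter (r x), ∑ u ∈ (T.erase x).erase y,
        ((((T.erase x).erase y).filter (r u)).card : ℝ) ≤
      (∑ u ∈ S, ((S.filter (r u)).card : ℝ)) ^ 2 * N := by
  have h1 : ∀ T ∈ F, ∑ x ∈ T, ∑ y ∈ T.filter (r x), ∑ u ∈ (T.erase x).erase y,
        ((((T.erase x).erase y).filter (r u)).card : ℝ) =
      ∑ x ∈ S, ∑ y ∈ S.filter (r x), ∑ u ∈ S, ∑ v ∈ S.filter (r u),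
        if (x ∈ T ∧ y ∈ T ∧ u ∈ T ∧ v ∈ T) ∧ (u ≠ x ∧ u ≠ y ∧ v ≠ x ∧ v ≠ y) then (1 : ℝ)
          else 0 := by
    intro T hT
    rw [kbt_ind (hF T hT)]
    refine sum_congr rfl fun x _ => ?_
    by_cases hx : x ∈ T
    · rw [if_pos hx, kbt_indf (hF T hT)]
      refine sum_congr rfl fun y _ => ?_
      by_cases hy : y ∈ T
      · rw [if_pos hy]
        have hsub : (T.erase x).erase y ⊆ S :=
          ((erase_subset _ _).trans (erase_subset _ _)).trans (hF T hT)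
        rw [kbt_ind hsub]
        refine sum_congr rfl fun u _ => ?_
        by_cases hu : u ∈ (T.erase x).erase y
        · rw [if_pos hu, kbt_indc hsub]
          refine sum_congr rfl fun v _ => ?_
          have hu' : u ≠ y ∧ u ≠ x ∧ u ∈ T := by
            simpa [mem_erase] using hu
          refine if_congr ?_ rfl rfl
          rw [mem_erase, mem_erase]
          constructor
          · rintro ⟨a1, a2, a3⟩
            exact ⟨⟨hx, hy, hu'.2.2, a3⟩, hu'.2.1, hu'.1, a2, a1⟩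
          · rintro ⟨⟨-, -, -, a3⟩, -, -, a2, a1⟩
            exact ⟨a1, a2, a3⟩
        · rw [if_neg hu]
          refine (sum_eq_zero fun v _ => ?_).symm
          rw [if_neg]
          rintro ⟨⟨-, -, a1, -⟩, a2, a3, -⟩
          exact hu (mem_erase.2 ⟨a3, mem_erase.2 ⟨a2, a1⟩⟩)
      · rw [if_neg hy]
        refine (sum_eq_zero fun u _ => sum_eq_zero fun v _ => ?_).symm
        rw [if_neg fun h => hy h.1.2.1]
    · rw [if_neg hx]
      refine (sum_eq_zero fun y _ => sum_eq_zero fun u _ => sum_eq_zero fun v _ => ?_).symm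
      rw [if_neg fun h => hx h.1.1]
  rw [sum_congr rfl h1]
  have h2 : ∑ T ∈ F, ∑ x ∈ S, ∑ y ∈ S.filter (r x), ∑ u ∈ S, ∑ v ∈ S.filter (r u),
        (if (x ∈ T ∧ y ∈ T ∧ u ∈ T ∧ v ∈ T) ∧ (u ≠ x ∧ u ≠ y ∧ v ≠ x ∧ v ≠ y) then (1 : ℝ)
          else 0) =
      ∑ x ∈ S, ∑ y ∈ S.filter (r x), ∑ u ∈ S, ∑ v ∈ S.filter (r u), ∑ T ∈ F,
        (if (x ∈ T ∧ y ∈ T ∧ u ∈ T ∧ v ∈ T) ∧ (u ≠ x ∧ u ≠ y ∧ v ≠ x ∧ v ≠ y) then (1 : ℝ)
          else 0) := by
    rw [sum_comm]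
    refine sum_congr rfl fun x _ => ?_
    rw [sum_comm]
    refine sum_congr rfl fun y _ => ?_
    rw [sum_comm]
    refine sum_congr rfl fun u _ => ?_
    rw [sum_comm]
  rw [h2]
  have h3 : ∀ x ∈ S, ∀ y ∈ S.filter (r x), ∀ u ∈ S, ∀ v ∈ S.filter (r u), ∑ T ∈ F,
        (if (x ∈ T ∧ y ∈ T ∧ u ∈ T ∧ v ∈ T) ∧ (u ≠ x ∧ u ≠ y ∧ v ≠ x ∧ v ≠ y) then (1 : ℝ)
          else 0) ≤ N := by
    intro x _ y hy u _ v hv
    by_cases h : u ≠ x ∧ u ≠ y ∧ v ≠ x ∧ v ≠ y
    · have hxy : x ≠ y := by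
        rintro rfl
        exact hi _ (mem_filter.1 hy).2
      have huv : u ≠ v := by
        rintro rfl
        exact hi _ (mem_filter.1 hv).2
      refine le_trans (le_of_eq ?_) (hN x y u v hxy huv h.1 h.2.1 h.2.2.1 h.2.2.2)
      rw [card_filter]
      push_cast
      refine sum_congr rfl fun T _ => if_congr ⟨fun a => a.1, fun a => ⟨a, h⟩⟩ rfl rfl
    · refine le_trans (le_of_eq ?_) hN0
      exact sum_eq_zero fun T _ => if_neg fun a => h a.2
  calc _ ≤ ∑ x ∈ S, ∑ y ∈ S.filter (r x), ∑ u ∈ S, ∑ v ∈ S.filter (r u), N :=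
        sum_le_sum fun x hx => sum_le_sum fun y hy => sum_le_sum fun u hu =>
          sum_le_sum fun v hv => h3 x hx y hy u hu v hv
    _ = _ := by
        simp only [sum_const, nsmul_eq_mul, ← sum_mul]
        ring

end kbt

/-! ### The block -/

section fin

variable {V : Type} [DecidableEq V]

/-- A missing pair. -/
def kbtR (G : SimpleGraph V) {b : ℕ} (Q : Fin b → Finset V) (u v : V) : Prop :=
  ∃ i k, i ≠ k ∧ u ∈ Q i ∧ v ∈ Q k ∧ ¬ G.Adj u v

omit [DecidableEq V] in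
theorem kbtR_symm (G : SimpleGraph V) {b : ℕ} (Q : Fin b → Finset V) (u v : V)
    (h : kbtR G Q u v) : kbtR G Q v u := by
  obtain ⟨i, k, h1, h2, h3, h4⟩ := h
  exact ⟨k, i, h1.symm, h3, h2, fun h => h4 h.symm⟩

omit [DecidableEq V] in
theorem kbtR_irr {G : SimpleGraph V} {b : ℕ} {Q : Fin b → Finset V} (hQ : Par G Q) (u : V) :
    ¬ kbtR G Q u u := by
  rintro ⟨i, k, h1, h2, h3, -⟩
  exact h1 (kbt_part hQ.dis h2 h3)

theorem kbt_un {G : SimpleGraph V} {b : ℕ} {Q : Fin b → Finset V} (hQ : Par G Q) (f : V → ℝ) :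
    ∑ u ∈ un Q, f u = ∑ j, ∑ u ∈ Q j, f u := by
  unfold un
  exact sum_biUnion fun i _ j _ hij => hQ.dis i j hij

open Classical in
theorem kbt_M {G : SimpleGraph V} {b : ℕ} {Q : Fin b → Finset V} (hQ : Par G Q) {j : Fin b}
    {u : V} (hu : u ∈ Q j) : ((un Q).filter (kbtR G Q u)).card =
      ∑ k ∈ univ.erase j, (non G (Q k) u).card := by
  have h1 : (un Q).filter (kbtR G Q u) = (univ.erase j).biUnion (fun k => non G (Q k) u) := by
    ext v
    unfold un non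
    rw [mem_filter, mem_biUnion, mem_biUnion]
    constructor
    · rintro ⟨-, i, k, h1, h2, h3, h4⟩
      rw [kbt_part hQ.dis h2 hu] at h1
      exact ⟨k, mem_erase.2 ⟨h1.symm, mem_univ _⟩, mem_filter.2 ⟨h3, h4⟩⟩
    · rintro ⟨k, hk, hv⟩
      obtain ⟨h1, h2⟩ := mem_filter.1 hv
      exact ⟨⟨k, mem_univ _, h1⟩, j, k, (mem_erase.1 hk).1.symm, hu, h1, h2⟩
  rw [h1, card_biUnion]
  intro i _ k _ hik
  refine (hQ.dis i k hik).mono ?_ ?_ <;>
  · unfold non
    exact filter_subset _ _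

open Classical in
theorem kbt_tot {G : SimpleGraph V} {b : ℕ} {Q : Fin b → Finset V} (hQ : Par G Q) :
    ∑ u ∈ un Q, (((un Q).filter (kbtR G Q u)).card : ℝ) = (tot G Q : ℝ) := by
  rw [kbt_un hQ]
  unfold tot
  rw [Nat.cast_sum]
  refine sum_congr rfl fun j _ => ?_
  rw [sum_comm, Nat.cast_sum]
  exact sum_congr rfl fun u hu => by rw [kbt_M hQ hu]

open Classical in
theorem kbt_sq {G : SimpleGraph V} {b : ℕ} {Q : Fin b → Finset V} (hQ : Par G Q) :
    ∑ u ∈ un Q, (((un Q).filter (kbtR G Q u)).card : ℝ) ^ 2 =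
      ∑ j, ∑ u ∈ Q j, ((∑ k ∈ univ.erase j, (non G (Q k) u).card : ℕ) : ℝ) ^ 2 := by
  rw [kbt_un hQ]
  exact sum_congr rfl fun j _ => sum_congr rfl fun u hu => by rw [kbt_M hQ hu]

theorem kbt_F2 {b : ℕ} (Q : Fin b → Finset V) (hd : ∀ i j, i ≠ j → Disjoint (Q i) (Q j)) (m : ℕ)
    {i k : Fin b} (hik : i ≠ k) {u v : V} (hu : u ∈ Q i) (hv : v ∈ Q k) :
    ((kbtT Q univ (m + 2) ∅).filter (fun T => u ∈ T ∧ v ∈ T)).card =
      (kbtT Q ((univ.erase i).erase k) m ∅).card := by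
  have huv : u ≠ v := by
    rintro rfl
    exact hik (kbt_part hd hu hv)
  have h1 : (kbtT Q univ (m + 2) ∅).filter (fun T => u ∈ T ∧ v ∈ T) =
      kbtT Q univ (m + 1 + 1) (insert u (insert v ∅)) := by
    ext T
    rw [mem_filter, mem_kbtT, mem_kbtT, insert_subset_iff, insert_subset_iff]
    constructor
    · rintro ⟨⟨a1, a2, a3⟩, a4, a5⟩
      exact ⟨a1, a2, a4, a5, a3⟩
    · rintro ⟨a1, a2, a4, a5, a3⟩
      exact ⟨⟨a1, a2, a3⟩, a4, a5⟩
  rw [h1, kbt_step Q hd (mem_univ i) hu (by simpa using huv) (m + 1),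
    kbt_step Q hd (mem_erase.2 ⟨hik.symm, mem_univ k⟩) hv (notMem_empty v) m]

theorem kbt_F3 {b : ℕ} (Q : Fin b → Finset V) (hd : ∀ i j, i ≠ j → Disjoint (Q i) (Q j)) (m : ℕ)
    {i k l : Fin b} (hik : i ≠ k) (hil : i ≠ l) (hkl : k ≠ l) {u v x : V} (hu : u ∈ Q i)
    (hv : v ∈ Q k) (hx : x ∈ Q l) :
    ((kbtT Q univ (m + 3) ∅).filter (fun T => u ∈ T ∧ v ∈ T ∧ x ∈ T)).card =
      (kbtT Q (((univ.erase i).erase k).erase l) m ∅).card := by
  have huv : u ≠ v := by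
    rintro rfl
    exact hik (kbt_part hd hu hv)
  have hux : u ≠ x := by
    rintro rfl
    exact hil (kbt_part hd hu hx)
  have hvx : v ≠ x := by
    rintro rfl
    exact hkl (kbt_part hd hv hx)
  have h1 : (kbtT Q univ (m + 3) ∅).filter (fun T => u ∈ T ∧ v ∈ T ∧ x ∈ T) =
      kbtT Q univ (m + 1 + 1 + 1) (insert u (insert v (insert x ∅))) := by
    ext T
    rw [mem_filter, mem_kbtT, mem_kbtT, insert_subset_iff, insert_subset_iff, insert_subset_iff]
    constructor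
    · rintro ⟨⟨a1, a2, a3⟩, a4, a5, a6⟩
      exact ⟨a1, a2, a4, a5, a6, a3⟩
    · rintro ⟨a1, a2, a4, a5, a6, a3⟩
      exact ⟨⟨a1, a2, a3⟩, a4, a5, a6⟩
  rw [h1, kbt_step Q hd (mem_univ i) hu (by simp [huv, hux]) (m + 1 + 1),
    kbt_step Q hd (mem_erase.2 ⟨hik.symm, mem_univ k⟩) hv (by simp [hvx]) (m + 1),
    kbt_step Q hd (mem_erase.2 ⟨hkl.symm, mem_erase.2 ⟨hil.symm, mem_univ l⟩⟩) hx
      (notMem_empty x) m]

open Classical in
theorem kbt_main (hE : ESTStmt) (G : SimpleGraph V) (p w : ℕ) (hw : 1 ≤ w)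
    (Q : Fin (p + 4) → Finset V) (hQ : Par G Q) (lo hi : ℝ) (h0 : 0 ≤ lo)
    (hlo : ∀ j, lo ≤ ((Q j).card : ℝ)) (hhi : ∀ j, ((Q j).card : ℝ) ≤ hi) :
    (kc G (un Q) (w + 3) : ℝ) +
        1 / 2 * ((tot G Q : ℝ) * (((p + 2).choose (w + 1) : ℝ) * lo ^ (w + 1))) ≤
      es (sz Q) (w + 3) +
        1 / 2 * ((∑ j, ∑ u ∈ Q j, ((∑ k ∈ univ.erase j, (non G (Q k) u).card : ℕ) : ℝ) ^ 2) *
          (((p + 1).choose w : ℝ) * hi ^ w)) +
        1 / 2 * ((tot G Q : ℝ) ^ 2 * ((un Q).card : ℝ) ^ (w - 1)) := by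
  have hhi0 : 0 ≤ hi := h0.trans ((hlo 0).trans (hhi 0))
  set F := kbtT Q univ (w + 3) ∅ with hF
  have hFS : ∀ T ∈ F, T ⊆ un Q := fun T hT => (mem_kbtT.1 hT).1.1
  have hes : (es (sz Q) (w + 3) : ℝ) = (F.card : ℝ) := by
    rw [hE.1 (sz Q) (w + 3), hF, kbt_card Q hQ.dis]
    rfl
  set r : V → V → Prop := kbtR G Q with hr
  set c : Finset V → ℝ := fun T => if G.IsClique (T : Set V) then 1 else 0 with hc
  have hkc : (kc G (un Q) (w + 3) : ℝ) ≤ ∑ T ∈ F, c T := by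
    have e1 : ∑ T ∈ F, c T =
        ((F.filter (fun T : Finset V => G.IsClique (T : Set V))).card : ℝ) := by
      rw [card_filter]
      push_cast
      rfl
    rw [e1, kc_eq]
    refine Nat.cast_le.2 (card_le_card fun T hT => ?_)
    obtain ⟨a1, a2, a3⟩ := (mem_clq G).1 hT
    refine mem_filter.2 ⟨mem_kbtT.2 ⟨⟨a1, a2⟩, ?_, empty_subset _⟩, a3⟩
    intro j x hx y hy hxj hyj
    by_contra hxy
    exact hQ.ind j x hxj y hyj (a3 (mem_coe.2 hx) (mem_coe.2 hy) hxy)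
  have hpt : ∑ T ∈ F, (c T + 1 / 2 * ∑ u ∈ T, ((T.filter (r u)).card : ℝ)) ≤
      ∑ T ∈ F, (1 + 1 / 2 * ∑ u ∈ T, ((T.filter (r u)).card : ℝ) *
        (((T.filter (r u)).card : ℝ) - 1) +
      1 / 2 * ∑ x ∈ T, ∑ y ∈ T.filter (r x), ∑ u ∈ (T.erase x).erase y,
        ((((T.erase x).erase y).filter (r u)).card : ℝ)) := by
    refine sum_le_sum fun T _ => kbt_pt T r (kbtR_symm G Q) (kbtR_irr hQ) (c T) ?_ ?_
    · rw [hc]
      show (if G.IsClique (T : Set V) then (1 : ℝ) else 0) ≤ 1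
      split_ifs <;> norm_num
    · rintro ⟨u, hu, v, hv, huv⟩
      rw [hc]
      show (if G.IsClique (T : Set V) then (1 : ℝ) else 0) = 0
      rw [if_neg]
      intro hcl
      have hne : u ≠ v := by
        rintro rfl
        exact kbtR_irr hQ u huv
      obtain ⟨_, _, _, _, _, hna⟩ := huv
      exact hna (hcl (mem_coe.2 hu) (mem_coe.2 hv) hne)
  rw [sum_add_distrib, sum_add_distrib, sum_add_distrib, ← mul_sum, ← mul_sum, ← mul_sum,
    sum_const, nsmul_eq_mul, mul_one] at hpt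
  have hs1 := kbt_sum1 F (un Q) hFS r (((p + 2).choose (w + 1) : ℝ) * lo ^ (w + 1)) (by
    intro u _ v hv
    obtain ⟨i, k, hik, hu, hv', -⟩ := (mem_filter.1 hv).2
    rw [hF, show w + 3 = w + 1 + 2 from rfl, kbt_F2 Q hQ.dis (w + 1) hik hu hv']
    have h1 := kbt_lo Q hQ.dis ((univ.erase i).erase k) (w + 1) lo h0 hlo
    rwa [card_erase_of_mem (mem_erase.2 ⟨hik.symm, mem_univ k⟩), card_erase_of_mem (mem_univ i),
      card_univ, Fintype.card_fin] at h1)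
  have hs2 := kbt_sum2 F (un Q) hFS r (((p + 1).choose w : ℝ) * hi ^ w) (by positivity) (by
    rintro u _ ⟨v, x⟩ hvx
    obtain ⟨hv, hx, hne⟩ := mem_offDiag.1 hvx
    obtain ⟨i, k, hik, hu, hv', -⟩ := (mem_filter.1 hv).2
    obtain ⟨i', l, hil, hu', hx', -⟩ := (mem_filter.1 hx).2
    have := kbt_part hQ.dis hu' hu
    subst this
    by_cases hkl : k = l
    · subst hkl
      have h1 : F.filter (fun T => u ∈ T ∧ v ∈ T ∧ x ∈ T) = ∅ := by
        rw [filter_eq_empty_iff]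
        rintro T hT ⟨-, a1, a2⟩
        exact hne ((mem_kbtT.1 hT).2.1 k v a1 x a2 hv' hx')
      have h2 : ((F.filter (fun T => u ∈ T ∧ v ∈ T ∧ x ∈ T)).card : ℝ) = 0 := by
        rw [h1, card_empty, Nat.cast_zero]
      refine h2.le.trans ?_
      positivity
    · show ((F.filter (fun T => u ∈ T ∧ v ∈ T ∧ x ∈ T)).card : ℝ) ≤ _
      rw [hF, kbt_F3 Q hQ.dis w hik hil hkl hu hv' hx']
      have h1 := kbt_hi Q hQ.dis (((univ.erase i').erase k).erase l) w hi hhi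
      rwa [card_erase_of_mem (mem_erase.2 ⟨Ne.symm hkl, mem_erase.2 ⟨hil.symm, mem_univ l⟩⟩),
        card_erase_of_mem (mem_erase.2 ⟨hik.symm, mem_univ k⟩), card_erase_of_mem (mem_univ i'),
        card_univ, Fintype.card_fin] at h1)
  have hs3 := kbt_sum3 F (un Q) hFS r (((un Q).card : ℝ) ^ (w - 1)) (by positivity) (by
    intro x y u v hxy huv hux huy hvx hvy
    have h1 : (F.filter (fun T => x ∈ T ∧ y ∈ T ∧ u ∈ T ∧ v ∈ T)).card ≤
        (un Q).card.choose (w - 1) := by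
      refine card_le_choose' (X := {x, y, u, v}) ?_
      intro T hT
      obtain ⟨hTF, a1, a2, a3, a4⟩ := mem_filter.1 hT
      obtain ⟨⟨b1, b2⟩, -, -⟩ := mem_kbtT.1 hTF
      refine ⟨?_, sdiff_subset.trans b1, ?_⟩
      · intro z hz
        simp only [mem_insert, mem_singleton] at hz
        rcases hz with rfl | rfl | rfl | rfl <;> assumption
      · have h4 : ({x, y, u, v} : Finset V).card = 4 := by
          rw [card_insert_of_notMem, card_insert_of_notMem, card_insert_of_notMem,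
            card_singleton]
          · simpa using huv
          · simp only [mem_insert, mem_singleton, not_or]
            exact ⟨huy.symm, hvy.symm⟩
          · simp only [mem_insert, mem_singleton, not_or]
            exact ⟨hxy, hux.symm, hvx.symm⟩
        rw [h4, b2]
        omega
    exact_mod_cast h1.trans (Nat.choose_le_pow _ _)) (kbtR_irr hQ)
  rw [kbt_tot hQ] at hs1 hs3
  rw [kbt_sq hQ] at hs2
  rw [hes]
  linarith

theorem kbt_pow_lo (x C : ℝ) (n : ℕ) (hC : 0 ≤ C) (hx : C ≤ x) (hx0 : 0 < x) :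
    x ^ (n + 1) - (n + 1) * C * x ^ n ≤ (x - C) ^ (n + 1) := by
  have h1 := one_add_mul_le_pow (a := -(C / x)) (by
    have : C / x ≤ 1 := (div_le_one hx0).2 hx
    linarith) (n + 1)
  have h2 : (x - C) ^ (n + 1) = (1 + -(C / x)) ^ (n + 1) * x ^ (n + 1) := by
    rw [← mul_pow]
    congr 1
    field_simp
    ring
  rw [h2]
  have h3 : x ^ (n + 1) - (n + 1) * C * x ^ n =
      (1 + ((n + 1 : ℕ) : ℝ) * -(C / x)) * x ^ (n + 1) := by
    push_cast
    rw [pow_succ]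
    field_simp
    ring
  rw [h3]
  exact mul_le_mul_of_nonneg_right h1 (by positivity)

theorem kbt_pow_hi (x C : ℝ) (n : ℕ) (hC : 0 ≤ C) (hx0 : 0 < x) (hx : 2 * n * C ≤ x) :
    (x + C) ^ n ≤ 2 * x ^ n := by
  have hxC : 0 < x + C := by linarith
  have h1 := one_add_mul_le_pow (a := -(C / (x + C))) (by
    have : C / (x + C) ≤ 1 := (div_le_one hxC).2 (by linarith)
    linarith) n
  have h2 : (x : ℝ) ^ n = (1 + -(C / (x + C))) ^ n * (x + C) ^ n := by
    rw [← mul_pow]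
    congr 1
    field_simp
    ring
  have h3 : (1 : ℝ) / 2 ≤ 1 + (n : ℝ) * -(C / (x + C)) := by
    have h4 : (n : ℝ) * (C / (x + C)) ≤ 1 / 2 := by
      rw [← mul_div_assoc, div_le_div_iff₀ hxC (by norm_num)]
      nlinarith
    linarith
  have h5 : (1 : ℝ) / 2 * (x + C) ^ n ≤ (1 + -(C / (x + C))) ^ n * (x + C) ^ n :=
    mul_le_mul_of_nonneg_right (h3.trans h1) (by positivity)
  linarith

theorem kbt_thm (hE : ESTStmt) : KBTStmt := by
  intro p w hw hwp C hC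
  set c₂ : ℝ := ((p + 2).choose (w + 1) : ℝ) with hc₂
  refine ⟨1 / 2 * (c₂ * ((w + 1) * C) * C) + 1 / 2 * (C ^ 2 * (2 * ((p : ℝ) + 4)) ^ (w - 1)) + 1,
    by positivity, ⌈C + 2 * w * C⌉₊ + 1, ?_⟩
  intro a ha V _ G Q hQ hsz htot
  have haR : C + 2 * w * C + 1 ≤ (a : ℝ) := by
    have h1 : ((⌈C + 2 * w * C⌉₊ + 1 : ℕ) : ℝ) ≤ a := Nat.cast_le.2 ha
    push_cast at h1
    linarith [Nat.le_ceil (C + 2 * w * C)]
  have hwC : 0 ≤ 2 * (w : ℝ) * C := by positivity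
  have haC : C ≤ (a : ℝ) := by linarith
  have ha0 : (0 : ℝ) < a := by linarith
  have hmain := kbt_main hE G p w hw Q hQ (a - C) (a + C) (by linarith)
    (fun j => by linarith [(hsz j).1]) (fun j => (hsz j).2)
  rw [← hc₂] at hmain
  have htot0 : (0 : ℝ) ≤ tot G Q := Nat.cast_nonneg _
  have h1 := kbt_pow_lo (a : ℝ) C w hC.le haC ha0
  have h2 := kbt_pow_hi (a : ℝ) C w hC.le ha0 (by linarith)
  have hc₂0 : 0 ≤ c₂ := Nat.cast_nonneg _
  -- the first term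
  have e1 : (tot G Q : ℝ) * (c₂ * (a : ℝ) ^ (w + 1)) - c₂ * ((w + 1) * C) * C * (a : ℝ) ^ (w + 1) ≤
      (tot G Q : ℝ) * (c₂ * ((a : ℝ) - C) ^ (w + 1)) := by
    have f1 : (tot G Q : ℝ) * (c₂ * ((a : ℝ) ^ (w + 1) - (w + 1) * C * (a : ℝ) ^ w)) ≤
        (tot G Q : ℝ) * (c₂ * ((a : ℝ) - C) ^ (w + 1)) :=
      mul_le_mul_of_nonneg_left (mul_le_mul_of_nonneg_left h1 hc₂0) htot0
    have f2 : (tot G Q : ℝ) * (c₂ * ((w + 1) * C * (a : ℝ) ^ w)) ≤
        C * a * (c₂ * ((w + 1) * C * (a : ℝ) ^ w)) :=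
      mul_le_mul_of_nonneg_right htot (by positivity)
    have f3 : C * a * (c₂ * ((w + 1) * C * (a : ℝ) ^ w)) =
        c₂ * ((w + 1) * C) * C * (a : ℝ) ^ (w + 1) := by
      rw [pow_succ]
      ring
    have f4 : (tot G Q : ℝ) * (c₂ * ((a : ℝ) ^ (w + 1) - (w + 1) * C * (a : ℝ) ^ w)) =
        (tot G Q : ℝ) * (c₂ * (a : ℝ) ^ (w + 1)) -
          (tot G Q : ℝ) * (c₂ * ((w + 1) * C * (a : ℝ) ^ w)) := by ring
    linarith
  -- the second term
  set H : ℝ := ∑ j, ∑ u ∈ Q j, ((∑ k ∈ univ.erase j, (non G (Q k) u).card : ℕ) : ℝ) ^ 2 with hH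
  have hH0 : 0 ≤ H := sum_nonneg fun _ _ => sum_nonneg fun _ _ => sq_nonneg _
  have e2 : H * (((p + 1).choose w : ℝ) * ((a : ℝ) + C) ^ w) ≤
      2 * (((p + 1).choose w : ℝ) * (a : ℝ) ^ w * H) := by
    have f1 : H * (((p + 1).choose w : ℝ) * ((a : ℝ) + C) ^ w) ≤
        H * (((p + 1).choose w : ℝ) * (2 * (a : ℝ) ^ w)) :=
      mul_le_mul_of_nonneg_left (mul_le_mul_of_nonneg_left h2 (Nat.cast_nonneg _)) hH0
    linarith
  -- the third term
  have hun : ((un Q).card : ℝ) ≤ 2 * ((p : ℝ) + 4) * a := by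
    have f1 : ((un Q).card : ℝ) ≤ ∑ j : Fin (p + 4), ((Q j).card : ℝ) := by
      unfold un
      exact_mod_cast card_biUnion_le
    have f2 : ∑ j : Fin (p + 4), ((Q j).card : ℝ) ≤ ∑ _j : Fin (p + 4), 2 * (a : ℝ) :=
      sum_le_sum fun j _ => by linarith [(hsz j).2]
    rw [sum_const, card_univ, Fintype.card_fin, nsmul_eq_mul] at f2
    push_cast at f2
    linarith
  have e3 : (tot G Q : ℝ) ^ 2 * ((un Q).card : ℝ) ^ (w - 1) ≤
      C ^ 2 * (2 * ((p : ℝ) + 4)) ^ (w - 1) * (a : ℝ) ^ (w + 1) := by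
    have f1 : (tot G Q : ℝ) ^ 2 ≤ (C * a) ^ 2 := pow_le_pow_left₀ htot0 htot 2
    have f2 : ((un Q).card : ℝ) ^ (w - 1) ≤ (2 * ((p : ℝ) + 4) * a) ^ (w - 1) :=
      pow_le_pow_left₀ (Nat.cast_nonneg _) hun _
    have f3 : (C * (a : ℝ)) ^ 2 * (2 * ((p : ℝ) + 4) * a) ^ (w - 1) =
        C ^ 2 * (2 * ((p : ℝ) + 4)) ^ (w - 1) * (a : ℝ) ^ (w + 1) := by
      obtain ⟨v, rfl⟩ : ∃ v, w = v + 1 := ⟨w - 1, by omega⟩
      rw [Nat.add_sub_cancel, mul_pow, mul_pow]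
      ring
    rw [← f3]
    exact mul_le_mul f1 f2 (by positivity) (by positivity)
  have e4 : (0 : ℝ) ≤ (a : ℝ) ^ (w + 1) := by positivity
  unfold c1
  rw [← hc₂]
  have e5 : (1 / 2 * (c₂ * ((w + 1) * C) * C) + 1 / 2 * (C ^ 2 * (2 * ((p : ℝ) + 4)) ^ (w - 1)) +
      1) * (a : ℝ) ^ (w + 1) = 1 / 2 * (c₂ * ((w + 1) * C) * C * (a : ℝ) ^ (w + 1)) +
      1 / 2 * (C ^ 2 * (2 * ((p : ℝ) + 4)) ^ (w - 1) * (a : ℝ) ^ (w + 1)) +
      (a : ℝ) ^ (w + 1) := by ring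
  have e6 : 1 / 2 * c₂ * (a : ℝ) ^ (w + 1) * (tot G Q : ℝ) =
      1 / 2 * ((tot G Q : ℝ) * (c₂ * (a : ℝ) ^ (w + 1))) := by ring
  rw [e5, e6]
  linarith

end fin

end Pool.IA7
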